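import Mathlib

/-! # Graphs with many triangles at every vertex: basic counting -/

set_option autoImplicit false

namespace Q116.TD

open Finset

variable {V : Type} [Fintype V] [DecidableEq V] (G : SimpleGraph V) [DecidableRel G.Adj]

/-- indicator of adjacency -/
def I (x y : V) : ℝ := if G.Adj x y then 1 else 0

/-- indicator of non-adjacency of distinct vertices -/
def J (x y : V) : ℝ := if x ≠ y ∧ ¬ G.Adj x y then 1 else 0

/-- number of neighbours of `x` in `B` -/
def cd (x : V) (B : Finset V) : ℝ := ∑ y ∈ B, I G x y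

/-- number of adjacent pairs in `A × B` -/
def E (A B : Finset V) : ℝ := ∑ x ∈ A, cd G x B

/-- neighbourhood -/
abbrev N (x : V) : Finset V := G.neighborFinset x

/-- closed neighbourhood -/
def K (x : V) : Finset V := insert x (N G x)

/-- degree -/
def dg (x : V) : ℝ := (N G x).card

variable {G}

theorem I_nonneg (x y : V) : 0 ≤ I G x y := by
  unfold I; split_ifs <;> norm_num

theorem I_le_one (x y : V) : I G x y ≤ 1 := by
  unfold I; split_ifs <;> norm_num

theorem I_comm (x y : V) : I G x y = I G y x := by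
  unfold I; simp [G.adj_comm]

theorem J_nonneg (x y : V) : 0 ≤ J G x y := by
  unfold J; split_ifs <;> norm_num

theorem I_adj {x y : V} (h : G.Adj x y) : I G x y = 1 := if_pos h

theorem I_not {x y : V} (h : ¬ G.Adj x y) : I G x y = 0 := if_neg h

theorem cd_nonneg (x : V) (B : Finset V) : 0 ≤ cd G x B :=
  Finset.sum_nonneg fun y _ => I_nonneg x y

theorem cd_le_card (x : V) (B : Finset V) : cd G x B ≤ B.card := by
  unfold cd
  calc ∑ y ∈ B, I G x y ≤ ∑ _y ∈ B, (1 : ℝ) := Finset.sum_le_sum fun y _ => I_le_one x y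
    _ = B.card := by simp

theorem cd_mono (x : V) {B C : Finset V} (h : B ⊆ C) : cd G x B ≤ cd G x C :=
  Finset.sum_le_sum_of_subset_of_nonneg h fun y _ _ => I_nonneg x y

theorem cd_split (x : V) (B C : Finset V) : cd G x (B ∩ C) + cd G x (B \ C) = cd G x B :=
  Finset.sum_inter_add_sum_sdiff B C _

theorem cd_eq_card (x : V) (B : Finset V) : cd G x B = ((N G x ∩ B).card : ℝ) := by
  unfold cd I
  rw [Finset.sum_ite, Finset.sum_const_zero, add_zero, Finset.sum_const, nsmul_eq_mul, mul_one]
  congr 2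
  ext y
  simp [and_comm]

theorem cd_univ (x : V) : cd G x Finset.univ = dg G x := by
  rw [cd_eq_card, Finset.inter_univ]; rfl

theorem E_nonneg (A B : Finset V) : 0 ≤ E G A B :=
  Finset.sum_nonneg fun x _ => cd_nonneg x B

theorem E_comm (A B : Finset V) : E G A B = E G B A := by
  unfold E cd
  rw [Finset.sum_comm]
  exact Finset.sum_congr rfl fun x _ => Finset.sum_congr rfl fun y _ => I_comm _ _

theorem E_mono {A A' B B' : Finset V} (h : A ⊆ A') (h' : B ⊆ B') : E G A B ≤ E G A' B' := by
  unfold E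
  calc ∑ x ∈ A, cd G x B ≤ ∑ x ∈ A, cd G x B' := Finset.sum_le_sum fun x _ => cd_mono x h'
    _ ≤ ∑ x ∈ A', cd G x B' :=
      Finset.sum_le_sum_of_subset_of_nonneg h fun x _ _ => cd_nonneg x B'

theorem E_le_mul (A B : Finset V) : E G A B ≤ A.card * B.card := by
  unfold E
  calc ∑ x ∈ A, cd G x B ≤ ∑ _x ∈ A, (B.card : ℝ) := Finset.sum_le_sum fun x _ => cd_le_card x B
    _ = A.card * B.card := by rw [Finset.sum_const, nsmul_eq_mul]

theorem E_split_left (A B C : Finset V) : E G (A ∩ C) B + E G (A \ C) B = E G A B :=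
  Finset.sum_inter_add_sum_sdiff A C _

theorem E_split_right (A B C : Finset V) : E G A (B ∩ C) + E G A (B \ C) = E G A B := by
  unfold E
  rw [← Finset.sum_add_distrib]
  exact Finset.sum_congr rfl fun x _ => cd_split x B C

theorem E_univ_right (A : Finset V) : E G A Finset.univ = ∑ x ∈ A, dg G x :=
  Finset.sum_congr rfl fun x _ => cd_univ x

theorem mem_N {x y : V} : y ∈ N G x ↔ G.Adj x y := G.mem_neighborFinset x y

theorem self_notMem_N (x : V) : x ∉ N G x := by
  rw [mem_N]; exact G.loopless.irrefl x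

theorem card_K (x : V) : ((K G x).card : ℝ) = dg G x + 1 := by
  unfold K dg
  rw [Finset.card_insert_of_notMem (self_notMem_N x)]
  push_cast; ring

/-- for a neighbour `u` of `w` -/
theorem cd_N_le (w : V) {u : V} (hu : u ∈ N G w) : cd G u (N G w) ≤ dg G w - 1 := by
  have h1 : cd G u (N G w) = cd G u ((N G w).erase u) := by
    unfold cd
    rw [← Finset.add_sum_erase _ _ hu, I_not (G.loopless.irrefl u), zero_add]
  rw [h1]
  refine (cd_le_card _ _).trans ?_
  have h2 := Finset.card_erase_add_one hu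
  unfold dg
  have h3 : (((N G w).erase u).card : ℝ) + 1 = ((N G w).card : ℝ) := by exact_mod_cast h2
  linarith

theorem cd_add_J (w : V) {u : V} (hu : u ∈ N G w) :
    cd G u (N G w) + ∑ y ∈ N G w, J G u y = dg G w - 1 := by
  unfold cd
  rw [← Finset.sum_add_distrib, ← Finset.add_sum_erase _ _ hu]
  have h1 : I G u u + J G u u = 0 := by
    rw [I_not (G.loopless.irrefl u)]
    unfold J; simp
  have h2 : ∀ y ∈ (N G w).erase u, I G u y + J G u y = 1 := by
    intro y hy
    have hne := (Finset.mem_erase.1 hy).1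
    unfold I J
    by_cases h : G.Adj u y
    · simp [h]
    · simp [h, hne.symm]
  rw [h1, zero_add, Finset.sum_congr rfl h2, Finset.sum_const, nsmul_eq_mul, mul_one]
  have h3 := Finset.card_erase_add_one hu
  unfold dg
  have h4 : (((N G w).erase u).card : ℝ) + 1 = ((N G w).card : ℝ) := by exact_mod_cast h3
  linarith

theorem cd_K (w : V) {u : V} (hu : u ∈ N G w) : cd G u (K G w) = cd G u (N G w) + 1 := by
  unfold cd K
  rw [Finset.sum_insert (self_notMem_N w), I_adj ((mem_N.1 hu).symm)]
  ring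

theorem cd_K_self (w : V) : cd G w (K G w) = dg G w := by
  rw [cd_eq_card]
  unfold dg K
  congr 2
  ext y
  rw [Finset.mem_inter, Finset.mem_insert]
  exact ⟨fun h => h.1, fun h => ⟨h, Or.inr h⟩⟩

theorem cd_compl (x : V) (B : Finset V) : cd G x B + cd G x Bᶜ = dg G x := by
  rw [← cd_univ, ← cd_split x Finset.univ B, Finset.univ_inter]
  congr 1

/-- `E (N w) (N w) = dg w (dg w - 1) - missing pairs`. -/
theorem E_add_J (w : V) :
    E G (N G w) (N G w) + ∑ u ∈ N G w, ∑ y ∈ N G w, J G u y = dg G w * (dg G w - 1) := by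
  unfold E
  rw [← Finset.sum_add_distrib, Finset.sum_congr rfl (fun u hu => cd_add_J w hu),
    Finset.sum_const, nsmul_eq_mul]
  rfl

theorem E_N_le (w : V) : E G (N G w) (N G w) ≤ dg G w * (dg G w - 1) := by
  rw [← E_add_J]
  have : 0 ≤ ∑ u ∈ N G w, ∑ y ∈ N G w, J G u y :=
    Finset.sum_nonneg fun u _ => Finset.sum_nonneg fun y _ => J_nonneg u y
  linarith

/-- The basic inequality. -/
theorem basic (t : ℝ) (w : V) (A : Finset V) (hW : t * (t - 1) ≤ E G (N G w) (N G w)) :
    ∑ u ∈ N G w ∩ A, cd G u (K G w)ᶜ ≤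
      (dg G w - t) * (t - 1 + (N G w \ A).card) + ∑ u ∈ N G w ∩ A, (dg G u - t) := by
  have h1 : ∀ u ∈ N G w ∩ A, cd G u (K G w)ᶜ = (dg G u - t) + (t - 1) - cd G u (N G w) := by
    intro u hu
    have h2 := cd_compl (G := G) u (K G w)
    rw [cd_K w (Finset.mem_inter.1 hu).1] at h2
    linarith
  rw [Finset.sum_congr rfl h1, Finset.sum_sub_distrib, Finset.sum_add_distrib, Finset.sum_const,
    nsmul_eq_mul]
  have h3 : E G (N G w ∩ A) (N G w) + E G (N G w \ A) (N G w) = E G (N G w) (N G w) :=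
    E_split_left _ _ _
  have h4 : E G (N G w \ A) (N G w) ≤ (N G w \ A).card * (dg G w - 1) := by
    unfold E
    calc ∑ x ∈ N G w \ A, cd G x (N G w) ≤ ∑ _x ∈ N G w \ A, (dg G w - 1) :=
          Finset.sum_le_sum fun x hx => cd_N_le w (Finset.mem_sdiff.1 hx).1
      _ = _ := by rw [Finset.sum_const, nsmul_eq_mul]
  have h5 : ((N G w ∩ A).card : ℝ) + (N G w \ A).card = dg G w := by
    unfold dg
    have := Finset.card_inter_add_card_sdiff (N G w) A
    exact_mod_cast this
  have h6 : ∑ x ∈ N G w ∩ A, cd G x (N G w) = E G (N G w ∩ A) (N G w) := rfl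
  rw [h6]
  have h7 : ((N G w ∩ A).card : ℝ) = dg G w - (N G w \ A).card := by linarith
  rw [h7]
  nlinarith

end Q116.TD
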