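import Pool.Agent.Q116.TD.Basic

/-! # Classes of vertices -/

set_option autoImplicit false

namespace Q116.TD

open Finset

variable {V : Type} [Fintype V] [DecidableEq V] (G : SimpleGraph V) [DecidableRel G.Adj]

/-- The standing hypotheses. -/
structure Hyp (t m : ℝ) : Prop where
  hW : ∀ v, t * (t - 1) ≤ E G (N G v) (N G v)
  hd : ∀ v, t ≤ dg G v
  hB : ∑ v, (dg G v - t) ≤ m * (t + 4)
  hn : (Fintype.card V : ℝ) = m * (t + 4)
  hm : 1 ≤ m
  ht : 10 ^ 9 * m ^ 4 ≤ t

variable {G}

namespace Hyp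

variable {t m : ℝ} (h : Hyp G t m)

include h

theorem m2 : m ≤ m ^ 2 := by nlinarith [h.hm]

theorem m3 : m ^ 2 ≤ m ^ 3 := by
  have := h.hm
  have h0 : 0 ≤ m ^ 2 := by positivity
  nlinarith

theorem m4 : m ^ 3 ≤ m ^ 4 := by
  have := h.hm
  have h0 : 0 ≤ m ^ 3 := by positivity
  nlinarith

theorem t3 : 10 ^ 9 * m ^ 3 ≤ t := by
  have := h.m4; have := h.ht; linarith

theorem t2 : 10 ^ 9 * m ^ 2 ≤ t := by
  have := h.m3; have := h.t3; linarith

theorem t1 : 10 ^ 9 * m ≤ t := by
  have := h.m2; have := h.t2; linarith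

theorem t0 : 10 ^ 9 ≤ t := by
  have := h.hm; have := h.t1; linarith

theorem mt : m * (t + 4) ≤ 2 * (m * t) := by
  have := h.hm; have := h.t0
  nlinarith

theorem sum_le (S : Finset V) : ∑ v ∈ S, (dg G v - t) ≤ 2 * (m * t) := by
  refine le_trans ?_ (h.hB.trans h.mt)
  exact Finset.sum_le_sum_of_subset_of_nonneg (Finset.subset_univ S)
    fun v _ _ => sub_nonneg.2 (h.hd v)

theorem dg_le (v : V) : dg G v ≤ 3 * (m * t) := by
  have h1 := h.sum_le {v}
  rw [Finset.sum_singleton] at h1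
  have := h.hm; have := h.t0
  nlinarith

/-- edges leaving the closed neighbourhood of a good vertex -/
theorem out_le (v : V) (hv : dg G v - t ≤ 40 * m) : E G (K G v) (K G v)ᶜ ≤ 42 * (m * t) := by
  have h1 : E G (K G v) (K G v)ᶜ = ∑ u ∈ N G v ∩ Finset.univ, cd G u (K G v)ᶜ := by
    rw [Finset.inter_univ]
    unfold E
    conv_lhs => rw [K, Finset.sum_insert (self_notMem_N v)]
    have h2 := cd_compl (G := G) v (K G v)
    rw [cd_K_self] at h2
    have h3 : cd G v (K G v)ᶜ = 0 := by linarith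
    unfold K at h3
    rw [h3, zero_add]
    rfl
  rw [h1]
  refine (basic t v Finset.univ (h.hW v)).trans ?_
  have h2 : N G v \ Finset.univ = ∅ := by simp
  rw [h2, Finset.inter_univ]
  have h3 := h.sum_le (N G v)
  have h4 := h.t0
  have h5 := h.hd v
  simp only [Finset.card_empty, Nat.cast_zero, add_zero]
  have h6 : (dg G v - t) * (t - 1) ≤ 40 * m * (t - 1) :=
    mul_le_mul_of_nonneg_right hv (by linarith)
  have := h.hm
  nlinarith

theorem J_le (v : V) (hv : dg G v - t ≤ 40 * m) :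
    ∑ u ∈ N G v, ∑ y ∈ N G v, J G u y ≤ 120 * (m * t) := by
  have h1 := E_add_J (G := G) v
  have h2 := h.hW v
  have h3 := h.t1
  have h4 := h.hd v
  have h5 := h.hm
  have h6 : dg G v * (dg G v - 1) - t * (t - 1) = (dg G v - t) * (dg G v + t - 1) := by ring
  have h7 : (dg G v - t) * (dg G v + t - 1) ≤ (40 * m) * (2 * t + 40 * m) := by
    apply mul_le_mul hv (by linarith) (by linarith) (by linarith)
  nlinarith

omit h in
theorem J_K (v : V) : ∑ x ∈ K G v, ∑ y ∈ K G v, J G x y = ∑ x ∈ N G v, ∑ y ∈ N G v, J G x y := by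
  have h1 : ∀ y ∈ K G v, J G v y = 0 := by
    intro y hy
    unfold J
    rw [if_neg]
    rintro ⟨h2, h3⟩
    unfold K at hy
    rw [Finset.mem_insert, mem_N] at hy
    rcases hy with hy | hy
    · exact h2 hy.symm
    · exact h3 hy
  have h2 : ∀ y, J G y v = J G v y := by
    intro y
    unfold J
    simp [G.adj_comm, eq_comm]
  unfold K at h1 ⊢
  rw [Finset.sum_insert (self_notMem_N v), Finset.sum_eq_zero h1, zero_add]
  refine Finset.sum_congr rfl fun x hx => ?_
  rw [Finset.sum_insert (self_notMem_N v), h2, h1 x (Finset.mem_insert_of_mem hx), zero_add]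

/-- The dichotomy. -/
theorem prod_le (v w : V) (hv : dg G v - t ≤ 40 * m) (hw : dg G w - t ≤ 40 * m) :
    ((K G v ∩ K G w).card : ℝ) * (K G w \ K G v).card ≤ 162 * (m * t) := by
  have h1 : ((K G v ∩ K G w).card : ℝ) * (K G w \ K G v).card =
      E G (K G v ∩ K G w) (K G w \ K G v) +
        ∑ x ∈ K G v ∩ K G w, ∑ y ∈ K G w \ K G v, J G x y := by
    unfold E cd
    rw [← Finset.sum_add_distrib]
    rw [← nsmul_eq_mul, ← Finset.sum_const]
    refine Finset.sum_congr rfl fun x hx => ?_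
    rw [← Finset.sum_add_distrib]
    have : ∀ y ∈ K G w \ K G v, I G x y + J G x y = 1 := by
      intro y hy
      have hne : x ≠ y := by
        rintro rfl
        exact (Finset.mem_sdiff.1 hy).2 (Finset.mem_inter.1 hx).1
      unfold I J
      by_cases hxy : G.Adj x y <;> simp [hxy, hne]
    rw [Finset.sum_congr rfl this]
    simp
  have h2 : E G (K G v ∩ K G w) (K G w \ K G v) ≤ 42 * (m * t) := by
    refine le_trans (E_mono Finset.inter_subset_left ?_) (h.out_le v hv)
    intro y hy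
    rw [Finset.mem_compl]
    exact (Finset.mem_sdiff.1 hy).2
  have h3 : ∑ x ∈ K G v ∩ K G w, ∑ y ∈ K G w \ K G v, J G x y ≤ 120 * (m * t) := by
    refine le_trans ?_ (h.J_le w hw)
    rw [← J_K]
    calc ∑ x ∈ K G v ∩ K G w, ∑ y ∈ K G w \ K G v, J G x y
        ≤ ∑ x ∈ K G v ∩ K G w, ∑ y ∈ K G w, J G x y := by
          apply Finset.sum_le_sum
          intro x _
          exact Finset.sum_le_sum_of_subset_of_nonneg Finset.sdiff_subset
            fun y _ _ => J_nonneg x y
      _ ≤ _ := Finset.sum_le_sum_of_subset_of_nonneg Finset.inter_subset_right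
            fun x _ _ => Finset.sum_nonneg fun y _ => J_nonneg x y
  rw [h1]
  linarith

omit h in
theorem card_K_split (v w : V) :
    ((K G v ∩ K G w).card : ℝ) + (K G w \ K G v).card = dg G w + 1 := by
  rw [← card_K, Finset.inter_comm]
  have := Finset.card_inter_add_card_sdiff (K G w) (K G v)
  exact_mod_cast this

theorem inter_small (v w : V) (hv : dg G v - t ≤ 40 * m) (hw : dg G w - t ≤ 40 * m)
    (hvw : 2 * ((K G v ∩ K G w).card : ℝ) < t) : ((K G v ∩ K G w).card : ℝ) ≤ 324 * m := by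
  have h1 := h.prod_le v w hv hw
  have h2 := card_K_split (G := G) v w
  have h3 := h.hd w
  have h4 : t / 2 ≤ ((K G w \ K G v).card : ℝ) := by linarith
  have h5 : ((K G v ∩ K G w).card : ℝ) * (t / 2) ≤ 162 * (m * t) :=
    le_trans (mul_le_mul_of_nonneg_left h4 (by positivity)) h1
  have h6 := h.t0
  by_contra hcon
  push Not at hcon
  nlinarith

theorem diff_small (v w : V) (hv : dg G v - t ≤ 40 * m) (hw : dg G w - t ≤ 40 * m)
    (hvw : t ≤ 2 * ((K G v ∩ K G w).card : ℝ)) : ((K G w \ K G v).card : ℝ) ≤ 324 * m := by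
  have h1 := h.prod_le v w hv hw
  have h4 : t / 2 ≤ ((K G v ∩ K G w).card : ℝ) := by linarith
  have h5 : (t / 2) * ((K G w \ K G v).card : ℝ) ≤ 162 * (m * t) :=
    le_trans (mul_le_mul_of_nonneg_right h4 (by positivity)) h1
  have h6 := h.t0
  by_contra hcon
  push Not at hcon
  nlinarith

omit h in
/-- Counting with a lower bound on the number of neighbours. -/
theorem card_mul_le (S B : Finset V) (c : ℝ) (hS : ∀ u ∈ S, c ≤ cd G u B) :
    (S.card : ℝ) * c ≤ E G S B := by
  unfold E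
  rw [← nsmul_eq_mul]
  exact Finset.card_nsmul_le_sum _ _ _ hS

/-- few vertices outside `K v` have many neighbours in it -/
theorem out_card (v : V) (hv : dg G v - t ≤ 40 * m) (S : Finset V) (hS : Disjoint S (K G v))
    (hS2 : ∀ u ∈ S, 7 / 10 * t ≤ cd G u (K G v)) : (S.card : ℝ) ≤ 60 * m := by
  have h1 := card_mul_le S (K G v) _ hS2
  have h2 : E G S (K G v) ≤ 42 * (m * t) := by
    rw [E_comm]
    refine le_trans (E_mono (Finset.Subset.refl _) ?_) (h.out_le v hv)
    intro y hy
    rw [Finset.mem_compl]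
    exact Finset.disjoint_left.1 hS hy
  have h3 := h.t0
  by_contra hcon
  push Not at hcon
  nlinarith

/-- few vertices of `K v` have few neighbours in it -/
theorem in_card (v : V) (hv : dg G v - t ≤ 40 * m) (S : Finset V) (hS : S ⊆ K G v)
    (hS2 : ∀ u ∈ S, cd G u (K G v) < 7 / 10 * t) : (S.card : ℝ) ≤ 480 * m := by
  have h3 := h.t0
  have h4 := h.hd v
  have hSN : S ⊆ N G v := by
    intro u hu
    have h5 := hS hu
    unfold K at h5
    rcases Finset.mem_insert.1 h5 with h6 | h6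
    · exfalso
      have := hS2 u hu
      rw [h6, cd_K_self] at this
      linarith
    · exact h6
  have h1 : (S.card : ℝ) * (t / 4) ≤ ∑ u ∈ S, ∑ y ∈ N G v, J G u y := by
    rw [← nsmul_eq_mul]
    apply Finset.card_nsmul_le_sum
    intro u hu
    have h6 := cd_add_J v (hSN hu)
    have h7 := cd_K v (hSN hu)
    have h8 := hS2 u hu
    linarith
  have h2 : ∑ u ∈ S, ∑ y ∈ N G v, J G u y ≤ 120 * (m * t) := by
    refine le_trans ?_ (h.J_le v hv)
    exact Finset.sum_le_sum_of_subset_of_nonneg hSN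
      fun x _ _ => Finset.sum_nonneg fun y _ => J_nonneg x y
  by_contra hcon
  push Not at hcon
  nlinarith

theorem in_card2 (v : V) (hv : dg G v - t ≤ 40 * m) (S : Finset V) (hS : S ⊆ K G v)
    (hS2 : ∀ u ∈ S, 6 / 10 * t ≤ cd G u (K G v)ᶜ) : (S.card : ℝ) ≤ 70 * m := by
  have h1 := card_mul_le S (K G v)ᶜ _ hS2
  have h2 : E G S (K G v)ᶜ ≤ 42 * (m * t) :=
    le_trans (E_mono hS (Finset.Subset.refl _)) (h.out_le v hv)
  have h3 := h.t0
  by_contra hcon
  push Not at hcon
  nlinarith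

end Hyp

end Q116.TD
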