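import Pool.Agent.Q116.TD.Class

/-! # The partition into classes -/

set_option autoImplicit false

namespace Q116.TD

open Finset

variable {V : Type} [Fintype V] [DecidableEq V] {G : SimpleGraph V} [DecidableRel G.Adj]

/-- The properties of a class. -/
structure IsClass (G : SimpleGraph V) [DecidableRel G.Adj] (t m : ℝ) (A : Finset V) : Prop where
  hi : (A.card : ℝ) ≤ t + 1 + 100 * m
  lo : t + 1 - 550 * m ≤ A.card
  out : E G A Aᶜ ≤ 1872 * (m ^ 2 * t)
  ins : ∀ u ∈ A, 65 / 100 * t ≤ cd G u A

theorem isClass_of {t m : ℝ} (h : Hyp G t m) (v : V) (hv : dg G v - t ≤ 40 * m) (A : Finset V)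
    (h1 : ((A \ K G v).card : ℝ) ≤ 60 * m) (h2 : ((K G v \ A).card : ℝ) ≤ 550 * m)
    (h3 : ∀ u ∈ A, 7 / 10 * t ≤ cd G u (K G v)) : IsClass G t m A := by
  have ht := h.t1
  have ht0 := h.t0
  have hm := h.hm
  have hm2 := h.m2
  have hd := h.hd v
  have hK := card_K (G := G) v
  refine ⟨?_, ?_, ?_, ?_⟩
  · have e1 : A.card ≤ (A \ K G v).card + (K G v).card := by
      rw [← Finset.card_inter_add_card_sdiff A (K G v), add_comm]
      exact Nat.add_le_add_left (Finset.card_le_card Finset.inter_subset_right) _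
    have e2 : (A.card : ℝ) ≤ ((A \ K G v).card : ℝ) + ((K G v).card : ℝ) := by exact_mod_cast e1
    linarith
  · have e1 : (K G v).card ≤ (K G v \ A).card + A.card := by
      rw [← Finset.card_inter_add_card_sdiff (K G v) A, add_comm]
      exact Nat.add_le_add_left (Finset.card_le_card Finset.inter_subset_right) _
    have e2 : ((K G v).card : ℝ) ≤ ((K G v \ A).card : ℝ) + (A.card : ℝ) := by exact_mod_cast e1
    linarith
  · have e1 : E G (A ∩ K G v) Aᶜ + E G (A \ K G v) Aᶜ = E G A Aᶜ := E_split_left _ _ _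
    have hsum : ∀ S : Finset V, E G S Finset.univ ≤ S.card * (3 * (m * t)) := by
      intro S
      rw [E_univ_right]
      calc ∑ x ∈ S, dg G x ≤ ∑ _x ∈ S, (3 * (m * t)) := Finset.sum_le_sum fun x _ => h.dg_le x
        _ = _ := by rw [Finset.sum_const, nsmul_eq_mul]
    have e2 : E G (A \ K G v) Aᶜ ≤ 60 * m * (3 * (m * t)) := by
      refine (E_mono (Finset.Subset.refl _) (Finset.subset_univ _)).trans ((hsum _).trans ?_)
      apply mul_le_mul_of_nonneg_right h1 (by positivity)
    have e3 : E G (A ∩ K G v) Aᶜ ≤ E G (K G v) Aᶜ :=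
      E_mono Finset.inter_subset_right (Finset.Subset.refl _)
    have e4 : E G (K G v) (Aᶜ ∩ K G v) + E G (K G v) (Aᶜ \ K G v) = E G (K G v) Aᶜ :=
      E_split_right _ _ _
    have e5 : E G (K G v) (Aᶜ ∩ K G v) ≤ 550 * m * (3 * (m * t)) := by
      rw [E_comm]
      have e6 : Aᶜ ∩ K G v ⊆ K G v \ A := by
        intro x hx
        rw [Finset.mem_inter, Finset.mem_compl] at hx
        exact Finset.mem_sdiff.2 ⟨hx.2, hx.1⟩
      refine (E_mono e6 (Finset.subset_univ _)).trans ((hsum _).trans ?_)
      apply mul_le_mul_of_nonneg_right h2 (by positivity)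
    have e7 : E G (K G v) (Aᶜ \ K G v) ≤ 42 * (m * t) := by
      refine le_trans (E_mono (Finset.Subset.refl _) ?_) (h.out_le v hv)
      intro x hx
      rw [Finset.mem_compl]
      exact (Finset.mem_sdiff.1 hx).2
    have e8 : m * t ≤ m ^ 2 * t := mul_le_mul_of_nonneg_right hm2 (by linarith)
    nlinarith
  · intro u hu
    have e1 := h3 u hu
    have e2 := cd_split (G := G) u (K G v) A
    have e3 := cd_le_card (G := G) u (K G v \ A)
    have e4 : cd G u (K G v ∩ A) ≤ cd G u A := cd_mono u Finset.inter_subset_right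
    linarith

theorem classes {t m : ℝ} (h : Hyp G t m) : ∃ (R L : Finset V) (A : V → Finset V),
    (∀ v ∈ R, ∀ w ∈ R, v ≠ w → Disjoint (A v) (A w)) ∧ (∀ v ∈ R, Disjoint (A v) L) ∧
    (∀ u, u ∈ L ∨ ∃ v ∈ R, u ∈ A v) ∧ (∀ v ∈ R, IsClass G t m (A v)) ∧
    (∀ u ∈ L, ∀ v ∈ R, cd G u (A v) ≤ 72 / 100 * t) ∧ (L.card : ℝ) ≤ t / 20 := by
  classical
  have ht := h.t1
  have ht0 := h.t0
  have hm := h.hm
  obtain ⟨R, hR, hmax⟩ := Finset.exists_max_image ((Finset.univ : Finset (Finset V)).filter
    (fun S => (∀ v ∈ S, dg G v - t ≤ 40 * m) ∧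
      ∀ v ∈ S, ∀ w ∈ S, v ≠ w → 2 * ((K G v ∩ K G w).card : ℝ) < t)) Finset.card
    ⟨∅, by simp⟩
  rw [Finset.mem_filter] at hR
  obtain ⟨-, hRg, hRp⟩ := hR
  have hgood : ∀ u, dg G u - t ≤ 40 * m → ∃ v ∈ R, t ≤ 2 * ((K G v ∩ K G u).card : ℝ) := by
    intro u hu
    by_contra hcon
    push Not at hcon
    have huR : u ∉ R := by
      intro huR
      have := hcon u huR
      rw [Finset.inter_self, card_K] at this
      have := h.hd u
      linarith
    have h1 := hmax (insert u R) (by
      rw [Finset.mem_filter]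
      refine ⟨Finset.mem_univ _, ?_, ?_⟩
      · intro v hv
        rcases Finset.mem_insert.1 hv with rfl | hv
        · exact hu
        · exact hRg v hv
      · intro v hv w hw hvw
        rcases Finset.mem_insert.1 hv with h2 | h2
        · rcases Finset.mem_insert.1 hw with h3 | h3
          · exact absurd (h2.trans h3.symm) hvw
          · rw [h2, Finset.inter_comm]; exact hcon w h3
        · rcases Finset.mem_insert.1 hw with h3 | h3
          · rw [h3]; exact hcon v h2
          · exact hRp v h2 w h3 hvw)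
    rw [Finset.card_insert_of_notMem huR] at h1
    omega
  have hf : ∀ u, ∃ v, (∃ w ∈ R, 7 / 10 * t ≤ cd G u (K G w)) →
      v ∈ R ∧ 7 / 10 * t ≤ cd G u (K G v) := by
    intro u
    by_cases hu : ∃ w ∈ R, 7 / 10 * t ≤ cd G u (K G w)
    · obtain ⟨w, hw⟩ := hu
      exact ⟨w, fun _ => hw⟩
    · exact ⟨u, fun h => absurd h hu⟩
  choose f hf using hf
  refine ⟨R, Finset.univ.filter (fun u => ∀ w ∈ R, cd G u (K G w) < 7 / 10 * t),
    fun v => Finset.univ.filter (fun u => 7 / 10 * t ≤ cd G u (K G v) ∧ f u = v), ?_, ?_, ?_, ?_,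
    ?_, ?_⟩
  · intro v _ w _ hvw
    rw [Finset.disjoint_left]
    intro u hu hu'
    rw [Finset.mem_filter] at hu hu'
    exact hvw (hu.2.2.symm.trans hu'.2.2)
  · intro v hv
    rw [Finset.disjoint_left]
    intro u hu hu'
    rw [Finset.mem_filter] at hu hu'
    have := hu'.2 v hv
    linarith [hu.2.1]
  · intro u
    by_cases hu : ∃ w ∈ R, 7 / 10 * t ≤ cd G u (K G w)
    · right
      obtain ⟨h1, h2⟩ := hf u hu
      exact ⟨f u, h1, Finset.mem_filter.2 ⟨Finset.mem_univ _, h2, rfl⟩⟩
    · left
      push Not at hu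
      exact Finset.mem_filter.2 ⟨Finset.mem_univ _, hu⟩
  · intro v hv
    have hvg := hRg v hv
    apply isClass_of h v hvg
    · apply h.out_card v hvg _ Finset.sdiff_disjoint
      intro u hu
      rw [Finset.mem_sdiff, Finset.mem_filter] at hu
      exact hu.1.2.1
    · set S := K G v \ Finset.univ.filter (fun u => 7 / 10 * t ≤ cd G u (K G v) ∧ f u = v) with hS
      have e1 := h.in_card v hvg (S.filter (fun u => cd G u (K G v) < 7 / 10 * t))
        ((Finset.filter_subset _ _).trans Finset.sdiff_subset) (fun u hu =>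
          (Finset.mem_filter.1 hu).2)
      have e2 := h.in_card2 v hvg (S.filter (fun u => ¬ cd G u (K G v) < 7 / 10 * t))
        ((Finset.filter_subset _ _).trans Finset.sdiff_subset) (fun u hu => by
          rw [Finset.mem_filter, hS, Finset.mem_sdiff, Finset.mem_filter] at hu
          obtain ⟨⟨hu1, hu2⟩, hu3⟩ := hu
          push Not at hu3
          have hne : f u ≠ v := fun h4 => hu2 ⟨Finset.mem_univ _, hu3, h4⟩
          obtain ⟨h5, h6⟩ := hf u ⟨v, hv, hu3⟩
          have h7 := h.inter_small v (f u) hvg (hRg _ h5) (hRp v hv (f u) h5 hne.symm)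
          have h8 := cd_split (G := G) u (K G (f u)) (K G v)
          have h9 := cd_le_card (G := G) u (K G (f u) ∩ K G v)
          rw [Finset.inter_comm] at h9 h8
          have h10 : cd G u (K G (f u) \ K G v) ≤ cd G u (K G v)ᶜ := by
            apply cd_mono
            intro y hy
            rw [Finset.mem_compl]
            exact (Finset.mem_sdiff.1 hy).2
          linarith)
      have e3 : ((S.filter (fun u => cd G u (K G v) < 7 / 10 * t)).card : ℝ) +
          (S.filter (fun u => ¬ cd G u (K G v) < 7 / 10 * t)).card = S.card := by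
        have := Finset.card_filter_add_card_filter_not (s := S)
          (fun u => cd G u (K G v) < 7 / 10 * t)
        exact_mod_cast this
      linarith
    · intro u hu
      exact (Finset.mem_filter.1 hu).2.1
  · intro u hu v hv
    have hvg := hRg v hv
    have h1 := (Finset.mem_filter.1 hu).2 v hv
    set A := Finset.univ.filter (fun u => 7 / 10 * t ≤ cd G u (K G v) ∧ f u = v) with hA
    have e1 : ((A \ K G v).card : ℝ) ≤ 60 * m := by
      apply h.out_card v hvg _ Finset.sdiff_disjoint
      intro u hu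
      rw [Finset.mem_sdiff, hA, Finset.mem_filter] at hu
      exact hu.1.2.1
    have e2 := cd_split (G := G) u A (K G v)
    have e3 : cd G u (A ∩ K G v) ≤ cd G u (K G v) := cd_mono u Finset.inter_subset_right
    have e4 := cd_le_card (G := G) u (A \ K G v)
    linarith
  · set L := Finset.univ.filter (fun u => ∀ w ∈ R, cd G u (K G w) < 7 / 10 * t) with hL
    have e1 : ∀ u ∈ L, 40 * m ≤ dg G u - t := by
      intro u hu
      by_contra hcon
      push Not at hcon
      obtain ⟨v, hv, hvu⟩ := hgood u hcon.le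
      have h1 := h.diff_small v u (hRg v hv) hcon.le hvu
      have h2 := (Finset.mem_filter.1 hu).2 v hv
      have h3 := cd_split (G := G) u (K G u) (K G v)
      have h4 := cd_le_card (G := G) u (K G u \ K G v)
      have h5 : cd G u (K G u ∩ K G v) ≤ cd G u (K G v) := cd_mono u Finset.inter_subset_right
      rw [cd_K_self] at h3
      have h6 := h.hd u
      linarith
    have e2 : (L.card : ℝ) * (40 * m) ≤ 2 * (m * t) := by
      refine le_trans ?_ (h.sum_le L)
      rw [← nsmul_eq_mul]
      exact Finset.card_nsmul_le_sum _ _ _ e1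
    by_contra hcon
    push Not at hcon
    nlinarith

end Q116.TD
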