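import Pool.Agent.Q116.TD.Basic

/-! # Triangle degrees and disjoint unions of complements of cycles -/

set_option autoImplicit false

namespace Q116.TD

open Finset

variable {V : Type} [Fintype V] [DecidableEq V]

/-- The number of triangles of `G` that contain `v`. -/
noncomputable def triangleDegree {V : Type} (G : SimpleGraph V) (v : V) : ℕ :=
  {s : Finset V | G.IsNClique 3 s ∧ v ∈ s}.ncard

theorem E_eq_two_mul (G : SimpleGraph V) [DecidableRel G.Adj] (v : V) :
    E G (N G v) (N G v) = 2 * (triangleDegree G v : ℝ) := by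
  classical
  set P : Finset (V × V) := (N G v ×ˢ N G v).filter (fun p => G.Adj p.1 p.2) with hP
  have h1 : E G (N G v) (N G v) = (P.card : ℝ) := by
    rw [hP, Finset.card_filter, Finset.sum_product]
    unfold E cd I
    push_cast
    rfl
  set T : Finset (Finset V) := Finset.univ.filter (fun s => G.IsNClique 3 s ∧ v ∈ s) with hT
  have h2 : triangleDegree G v = T.card := by
    unfold triangleDegree
    rw [← Set.ncard_coe_finset]
    congr 1
    ext s
    simp [hT]
  have hmaps : Set.MapsTo (fun p : V × V => ({v, p.1, p.2} : Finset V)) P T := by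
    intro p hp
    rw [Finset.mem_coe, hP, Finset.mem_filter, Finset.mem_product, mem_N, mem_N] at hp
    rw [Finset.mem_coe, hT, Finset.mem_filter]
    refine ⟨Finset.mem_univ _, ?_, by simp⟩
    rw [SimpleGraph.is3Clique_triple_iff]
    exact ⟨hp.1.1, hp.1.2, hp.2⟩
  rw [h1, h2, Finset.card_eq_sum_card_fiberwise hmaps]
  have h3 : ∀ s ∈ T, (P.filter (fun p : V × V => ({v, p.1, p.2} : Finset V) = s)).card = 2 := by
    intro s hs
    rw [hT, Finset.mem_filter] at hs
    obtain ⟨-, hs1, hs2⟩ := hs
    have hc : (s.erase v).card = 2 := by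
      rw [Finset.card_erase_of_mem hs2, hs1.card_eq]
    obtain ⟨a, b, hab, hs3⟩ := Finset.card_eq_two.1 hc
    have hs4 : s = {v, a, b} := by
      rw [← Finset.insert_erase hs2, hs3]
    have ha : a ∈ s.erase v := by rw [hs3]; simp
    have hb : b ∈ s.erase v := by rw [hs3]; simp
    have hav := (Finset.mem_erase.1 ha).1
    have hbv := (Finset.mem_erase.1 hb).1
    rw [hs4, SimpleGraph.is3Clique_triple_iff] at hs1
    have hfib : P.filter (fun p : V × V => ({v, p.1, p.2} : Finset V) = s) = {(a, b), (b, a)} := by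
      ext ⟨x, y⟩
      simp only [Finset.mem_filter, hP, Finset.mem_product, mem_N, Finset.mem_insert,
        Finset.mem_singleton, Prod.mk.injEq]
      constructor
      · rintro ⟨⟨⟨hx, hy⟩, hxy⟩, hs5⟩
        have hx1 : x ∈ s.erase v := by
          rw [Finset.mem_erase, ← hs5]
          exact ⟨hx.ne', by simp⟩
        have hy1 : y ∈ s.erase v := by
          rw [Finset.mem_erase, ← hs5]
          exact ⟨hy.ne', by simp⟩
        rw [hs3, Finset.mem_insert, Finset.mem_singleton] at hx1 hy1
        rcases hx1 with rfl | rfl <;> rcases hy1 with rfl | rfl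
        · exact absurd rfl hxy.ne
        · exact Or.inl ⟨rfl, rfl⟩
        · exact Or.inr ⟨rfl, rfl⟩
        · exact absurd rfl hxy.ne
      · rintro (⟨rfl, rfl⟩ | ⟨rfl, rfl⟩)
        · exact ⟨⟨⟨hs1.1, hs1.2.1⟩, hs1.2.2⟩, hs4.symm⟩
        · refine ⟨⟨⟨hs1.2.1, hs1.1⟩, hs1.2.2.symm⟩, ?_⟩
          rw [hs4]
          congr 1
          exact Finset.pair_comm _ _
    rw [hfib, Finset.card_pair]
    intro h
    exact hab (Prod.mk.inj h).1
  rw [Finset.sum_congr rfl h3, Finset.sum_const, smul_eq_mul]
  push_cast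
  ring

/-- Disjoint union of `m` copies of the complement of the cycle with `q` vertices. -/
def cc {m q : ℕ} (f : V ≃ Fin m × ZMod q) : SimpleGraph V where
  Adj x y := (f x).1 = (f y).1 ∧ (f x).2 - (f y).2 ≠ 0 ∧ (f x).2 - (f y).2 ≠ 1 ∧
    (f x).2 - (f y).2 ≠ -1
  symm := ⟨fun x y h => by
    obtain ⟨h1, h2, h3, h4⟩ := h
    refine ⟨h1.symm, ?_, ?_, ?_⟩
    · intro h; apply h2; rw [← neg_sub, h, neg_zero]
    · intro h; apply h4; rw [← neg_sub, h]
    · intro h; apply h3; rw [← neg_sub, h, neg_neg]⟩
  loopless := ⟨fun x h => h.2.1 (sub_self _)⟩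

instance {m q : ℕ} (f : V ≃ Fin m × ZMod q) : DecidableRel (cc f).Adj := fun x y =>
  inferInstanceAs (Decidable ((f x).1 = (f y).1 ∧ (f x).2 - (f y).2 ≠ 0 ∧ (f x).2 - (f y).2 ≠ 1 ∧
    (f x).2 - (f y).2 ≠ -1))

theorem zmod_ne {q : ℕ} (hq : 5 ≤ q) : (1 : ZMod q) ≠ 0 ∧ (2 : ZMod q) ≠ 0 ∧ (3 : ZMod q) ≠ 0 ∧
    (4 : ZMod q) ≠ 0 := by
  have key : ∀ k : ℕ, 0 < k → k < q → ((k : ℕ) : ZMod q) ≠ 0 := by
    intro k hk hkq h
    rw [ZMod.natCast_eq_zero_iff] at h
    exact absurd (Nat.le_of_dvd hk h) (by omega)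
  refine ⟨?_, ?_, ?_, ?_⟩
  · simpa using key 1 (by omega) (by omega)
  · simpa using key 2 (by omega) (by omega)
  · simpa using key 3 (by omega) (by omega)
  · simpa using key 4 (by omega) (by omega)

theorem cc_degree {m q : ℕ} (hq : 5 ≤ q) (f : V ≃ Fin m × ZMod q) (v : V) :
    ((N (cc f) v).card) = q - 3 := by
  haveI : NeZero q := ⟨by omega⟩
  obtain ⟨h1, h2, h3, h4⟩ := zmod_ne hq
  set S : Finset (ZMod q) := {(f v).2, (f v).2 - 1, (f v).2 + 1} with hS
  have hSc : S.card = 3 := by
    rw [hS, Finset.card_eq_three]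
    refine ⟨_, _, _, ?_, ?_, ?_, rfl⟩
    · intro h
      apply h1
      linear_combination h
    · intro h
      apply h1
      linear_combination -h
    · intro h
      apply h2
      linear_combination -h
  have h5 : N (cc f) v = (Finset.univ \ S).map
      ⟨fun b => f.symm ((f v).1, b), fun a b hab => by
        have := f.symm.injective hab
        exact (Prod.mk.inj this).2⟩ := by
    ext x
    rw [mem_N, Finset.mem_map]
    constructor
    · rintro ⟨e1, e2, e3, e4⟩
      refine ⟨(f x).2, ?_, ?_⟩
      · rw [Finset.mem_sdiff, hS]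
        refine ⟨Finset.mem_univ _, ?_⟩
        simp only [Finset.mem_insert, Finset.mem_singleton, not_or]
        refine ⟨fun h => e2 ?_, fun h => e3 ?_, fun h => e4 ?_⟩
        · rw [h, sub_self]
        · rw [h]; ring
        · rw [h]; ring
      · show f.symm ((f v).1, (f x).2) = x
        rw [e1]
        simp
    · rintro ⟨b, hb, rfl⟩
      rw [Finset.mem_sdiff, hS] at hb
      simp only [Finset.mem_insert, Finset.mem_singleton, not_or] at hb
      obtain ⟨-, e1, e2, e3⟩ := hb
      show (cc f).Adj v (f.symm ((f v).1, b))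
      refine ⟨by simp, ?_, ?_, ?_⟩
      · simp only [Equiv.apply_symm_apply]
        intro h; apply e1; linear_combination -h
      · simp only [Equiv.apply_symm_apply]
        intro h; apply e2; linear_combination -h
      · simp only [Equiv.apply_symm_apply]
        intro h; apply e3; linear_combination -h
  rw [h5, Finset.card_map, Finset.card_sdiff, Finset.inter_univ, hSc, Finset.card_univ,
    ZMod.card]

theorem cc_J {m q : ℕ} (hq : 5 ≤ q) (f : V ≃ Fin m × ZMod q) (v : V) :
    ∑ x ∈ N (cc f) v, ∑ y ∈ N (cc f) v, J (cc f) x y ≤ 2 * ((N (cc f) v).card - 1 : ℝ) := by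
  haveI : NeZero q := ⟨by omega⟩
  obtain ⟨h1, h2, h3, h4⟩ := zmod_ne hq
  let sh : ZMod q → V → V := fun c x => f.symm ((f x).1, (f x).2 + c)
  have key : ∀ c : ZMod q, c = 1 ∨ c = -1 → ∑ x ∈ N (cc f) v, ∑ y ∈ N (cc f) v,
      (if y = sh c x then (1 : ℝ) else 0) ≤ (N (cc f) v).card - 1 := by
    intro c hc
    have hx0 : sh (-(2 * c)) v ∈ N (cc f) v := by
      rw [mem_N]
      refine ⟨by simp [sh], ?_, ?_, ?_⟩
      · simp only [sh, Equiv.apply_symm_apply]
        rcases hc with rfl | rfl
        · intro h; apply h2; linear_combination h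
        · intro h; apply h2; linear_combination -h
      · simp only [sh, Equiv.apply_symm_apply]
        rcases hc with rfl | rfl
        · intro h; apply h1; linear_combination h
        · intro h; apply h3; linear_combination -h
      · simp only [sh, Equiv.apply_symm_apply]
        rcases hc with rfl | rfl
        · intro h; apply h3; linear_combination h
        · intro h; apply h1; linear_combination -h
    have hx1 : sh c (sh (-(2 * c)) v) ∉ N (cc f) v := by
      rw [mem_N]
      rintro ⟨-, -, e3, e4⟩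
      simp only [sh, Equiv.apply_symm_apply] at e3 e4
      rcases hc with rfl | rfl
      · apply e3; ring
      · apply e4; ring
    have h5 : ∀ x ∈ N (cc f) v, ∑ y ∈ N (cc f) v, (if y = sh c x then (1 : ℝ) else 0) =
        if sh c x ∈ N (cc f) v then 1 else 0 := by
      intro x _
      rw [Finset.sum_ite_eq']
    rw [Finset.sum_congr rfl h5, ← Finset.add_sum_erase _ _ hx0, if_neg hx1, zero_add]
    calc ∑ x ∈ (N (cc f) v).erase (sh (-(2 * c)) v), (if sh c x ∈ N (cc f) v then (1 : ℝ) else 0)
        ≤ ∑ _x ∈ (N (cc f) v).erase (sh (-(2 * c)) v), (1 : ℝ) := by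
          apply Finset.sum_le_sum
          intro x _
          split_ifs <;> norm_num
      _ = (N (cc f) v).card - 1 := by
          rw [Finset.sum_const, nsmul_eq_mul, mul_one]
          have := Finset.card_erase_add_one hx0
          have h6 : (((N (cc f) v).erase (sh (-(2 * c)) v)).card : ℝ) + 1 =
            ((N (cc f) v).card : ℝ) := by exact_mod_cast this
          linarith
  have hJ : ∀ x ∈ N (cc f) v, ∀ y ∈ N (cc f) v, J (cc f) x y ≤
      (if y = sh 1 x then (1 : ℝ) else 0) + (if y = sh (-1) x then (1 : ℝ) else 0) := by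
    intro x hx y hy
    rw [mem_N] at hx hy
    unfold J
    split_ifs with e1 e2 e3 e4
    · norm_num
    · norm_num
    · norm_num
    · exfalso
      obtain ⟨e5, e6⟩ := e1
      have e7 : (f x).1 = (f y).1 := hx.1.symm.trans hy.1
      apply e6
      refine ⟨e7, ?_, ?_, ?_⟩
      · intro h
        apply e5
        apply f.injective
        exact Prod.ext e7 (sub_eq_zero.1 h)
      · intro h
        apply e4
        apply f.injective
        simp only [sh, Equiv.apply_symm_apply]
        refine Prod.ext (show (f y).1 = (f x).1 from e7.symm) ?_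
        show (f y).2 = (f x).2 + -1
        linear_combination -h
      · intro h
        apply e2
        apply f.injective
        simp only [sh, Equiv.apply_symm_apply]
        refine Prod.ext (show (f y).1 = (f x).1 from e7.symm) ?_
        show (f y).2 = (f x).2 + 1
        linear_combination -h
    · norm_num
    · norm_num
    · norm_num
    · norm_num
  calc ∑ x ∈ N (cc f) v, ∑ y ∈ N (cc f) v, J (cc f) x y
      ≤ ∑ x ∈ N (cc f) v, ∑ y ∈ N (cc f) v,
        ((if y = sh 1 x then (1 : ℝ) else 0) + (if y = sh (-1) x then (1 : ℝ) else 0)) :=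
        Finset.sum_le_sum fun x hx => Finset.sum_le_sum fun y hy => hJ x hx y hy
    _ = ∑ x ∈ N (cc f) v, ∑ y ∈ N (cc f) v, (if y = sh 1 x then (1 : ℝ) else 0) +
        ∑ x ∈ N (cc f) v, ∑ y ∈ N (cc f) v, (if y = sh (-1) x then (1 : ℝ) else 0) := by
        rw [← Finset.sum_add_distrib]
        exact Finset.sum_congr rfl fun x _ => Finset.sum_add_distrib
    _ ≤ _ := by
        have := key 1 (Or.inl rfl)
        have := key (-1) (Or.inr rfl)
        linarith

/-- The triangle degrees of the construction. -/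
theorem cc_triangle {m t : ℕ} (ht : 1 ≤ t) (f : V ≃ Fin m × ZMod (t + 4)) (v : V) :
    t.choose 2 ≤ triangleDegree (cc f) v := by
  have h1 := E_eq_two_mul (cc f) v
  have h2 := E_add_J (G := cc f) v
  have h3 := cc_J (by omega) f v
  have h4 := cc_degree (by omega) f v
  have h5 : dg (cc f) v = t + 1 := by
    unfold dg
    rw [h4]
    have : t + 4 - 3 = t + 1 := by omega
    rw [this]; push_cast; ring
  have h6 : ((N (cc f) v).card : ℝ) = t + 1 := h5
  rw [h5] at h2
  rw [h6] at h3
  have h7 : (t : ℝ) * (t - 1) ≤ 2 * (triangleDegree (cc f) v : ℝ) := by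
    rw [← h1]; nlinarith
  have h8 : ((t.choose 2 : ℕ) : ℝ) ≤ (triangleDegree (cc f) v : ℝ) := by
    rw [Nat.cast_choose_two]; linarith
  exact_mod_cast h8

theorem cc_edges {m t : ℕ} (f : V ≃ Fin m × ZMod (t + 4)) (ht : 1 ≤ t) :
    2 * (cc f).edgeSet.ncard = m * (t + 4) * (t + 1) := by
  have h1 : 2 * (cc f).edgeSet.ncard = ∑ v, (cc f).degree v := by
    rw [← SimpleGraph.coe_edgeFinset, Set.ncard_coe_finset,
      (cc f).sum_degrees_eq_twice_card_edges]
  have h2 : Fintype.card V = m * (t + 4) := by
    rw [Fintype.card_congr f, Fintype.card_prod, Fintype.card_fin, ZMod.card]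
  rw [h1]
  have h3 : ∀ v ∈ (Finset.univ : Finset V), (cc f).degree v = t + 1 := by
    intro v _
    rw [← (cc f).card_neighborFinset_eq_degree]
    have h4 : ((cc f).neighborFinset v).card = t + 4 - 3 := cc_degree (by omega) f v
    rw [h4]
    omega
  rw [Finset.sum_congr rfl h3, Finset.sum_const, Finset.card_univ, h2, smul_eq_mul]

end Q116.TD
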