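import Pool.Agent.Q116.TD.Main

/-! # The final count -/

set_option autoImplicit false

namespace Q116.TD

open Finset

/-- Integer arithmetic of the last step. -/
theorem arith {ι : Type} [DecidableEq ι] (R : Finset ι) (M T ℓ DL C : ℤ) (s μ Δ : ι → ℤ)
    (hM : 1 ≤ M) (hℓ : 0 ≤ ℓ)
    (h1 : ∑ v ∈ R, s v + ℓ + R.card * (T + 1) = M * (T + 4))
    (h2 : (R.card : ℤ) ≤ M)
    (h3 : ∀ v ∈ R, μ v * (T + 1 + s v) ≤ Δ v)
    (h4 : ∀ v ∈ R, μ v * T - C ≤ Δ v)
    (h5 : ∀ v ∈ R, (s v - 2 * μ v) * T - C ≤ Δ v)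
    (h6 : 9 * T * ℓ ≤ 25 * DL)
    (h7 : ∑ v ∈ R, Δ v + DL ≤ M * (T + 4))
    (hC0 : 0 ≤ C) (hC : 75 * (M * C) + 300 * M < T) :
    ℓ = 0 ∧ ∀ v ∈ R, μ v = 1 := by
  have hT0 : 0 < T := by
    have : 0 ≤ M * C := mul_nonneg (by omega) hC0
    omega
  let q : ι → ℤ := fun v => max (μ v) (s v - 2 * μ v)
  have hq : ∀ v ∈ R, q v * T - C ≤ Δ v := by
    intro v hv
    rcases max_choice (μ v) (s v - 2 * μ v) with h | h
    · show max (μ v) (s v - 2 * μ v) * T - C ≤ Δ v
      rw [h]; exact h4 v hv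
    · show max (μ v) (s v - 2 * μ v) * T - C ≤ Δ v
      rw [h]; exact h5 v hv
  have hq1 : ∀ v, μ v ≤ q v := fun v => le_max_left _ _
  have hq2 : ∀ v, s v - 2 * μ v ≤ q v := fun v => le_max_right _ _
  have hq3 : ∀ v, s v ≤ 3 * q v := fun v => by have := hq1 v; have := hq2 v; omega
  have hsum : (∑ v ∈ R, q v) * T - R.card * C ≤ ∑ v ∈ R, Δ v := by
    have := Finset.sum_le_sum hq
    rw [Finset.sum_sub_distrib, ← Finset.sum_mul, Finset.sum_const, nsmul_eq_mul] at this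
    exact this
  have hRC : (R.card : ℤ) * C ≤ M * C := mul_le_mul_of_nonneg_right h2 hC0
  have hs3 : ∑ v ∈ R, s v ≤ 3 * ∑ v ∈ R, q v := by
    rw [Finset.mul_sum]
    exact Finset.sum_le_sum fun v _ => hq3 v
  obtain ⟨Q, hQ⟩ : ∃ Q, Q = ∑ v ∈ R, q v := ⟨_, rfl⟩
  obtain ⟨Ss, hSs⟩ : ∃ x, x = ∑ v ∈ R, s v := ⟨_, rfl⟩
  obtain ⟨D, hD⟩ : ∃ x, x = ∑ v ∈ R, Δ v := ⟨_, rfl⟩
  rw [← hSs] at h1 hs3
  rw [← hQ] at hs3 hsum
  rw [← hD] at hsum h7
  have hMR : 0 ≤ (M - R.card) * (T + 1) := mul_nonneg (by omega) (by omega)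
  have hb1 : 3 * M - ℓ + (M - R.card) * (T + 1) ≤ 3 * Q := by
    have e : M * (T + 4) = 3 * M + M * (T + 1) := by ring
    have e2 : (M - R.card) * (T + 1) = M * (T + 1) - R.card * (T + 1) := by ring
    omega
  have hℓ0 : ℓ = 0 := by
    by_contra hne
    have hℓ1 : 1 ≤ ℓ := by omega
    have e1 : (3 * M - ℓ) * T ≤ 3 * Q * T := mul_le_mul_of_nonneg_right (by omega) hT0.le
    have e2 : T * 1 ≤ T * ℓ := mul_le_mul_of_nonneg_left hℓ1 hT0.le
    nlinarith
  subst hℓ0
  have hQM : Q ≤ M := by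
    by_contra hcon
    have e1 : (M + 1) * T ≤ Q * T := mul_le_mul_of_nonneg_right (by omega) hT0.le
    nlinarith
  have hRM : (R.card : ℤ) = M := by
    by_contra hne
    have e0 : 1 ≤ M - (R.card : ℤ) := by omega
    have e1 : 1 * (T + 1) ≤ (M - R.card) * (T + 1) := mul_le_mul_of_nonneg_right e0 (by omega)
    omega
  have hsM : Ss = 3 * M := by rw [hRM] at h1; linarith
  have hQM' : Q = M := by omega
  have heq : ∀ v ∈ R, 3 * q v - s v = 0 := by
    have e1 : ∑ v ∈ R, (3 * q v - s v) = 0 := by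
      rw [Finset.sum_sub_distrib, ← Finset.mul_sum, ← hQ, ← hSs]; omega
    exact (Finset.sum_eq_zero_iff_of_nonneg (fun v _ => by have := hq3 v; omega)).1 e1
  have hμ : ∀ v ∈ R, s v = 3 * μ v := by
    intro v hv
    have e1 := heq v hv
    have e2 := hq1 v
    have e3 := hq2 v
    omega
  have hμM : ∑ v ∈ R, μ v = M := by
    have e1 : Ss = 3 * ∑ v ∈ R, μ v := by
      rw [hSs, Finset.mul_sum]; exact Finset.sum_congr rfl hμ
    omega
  refine ⟨rfl, ?_⟩
  have hsq : ∑ v ∈ R, μ v * (T + 1 + 3 * μ v) ≤ D := by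
    rw [hD]
    apply Finset.sum_le_sum
    intro v hv
    have := h3 v hv
    rw [hμ v hv] at this
    exact this
  have e5 : ∑ v ∈ R, μ v * (T + 1 + 3 * μ v) = (∑ v ∈ R, μ v) * (T + 1) + 3 * ∑ v ∈ R, μ v ^ 2 := by
    rw [Finset.sum_mul, Finset.mul_sum, ← Finset.sum_add_distrib]
    exact Finset.sum_congr rfl fun v _ => by ring
  rw [e5, hμM] at hsq
  have hDL : 0 ≤ DL := by
    have : 9 * T * 0 ≤ 25 * DL := h6
    omega
  have hsq2 : ∑ v ∈ R, μ v ^ 2 ≤ M := by nlinarith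
  have h0 : ∑ v ∈ R, (μ v - 1) ^ 2 = 0 := by
    apply le_antisymm
    · have e6 : ∑ v ∈ R, (μ v - 1) ^ 2 = ∑ v ∈ R, μ v ^ 2 - 2 * ∑ v ∈ R, μ v + R.card := by
        rw [Finset.mul_sum, ← Finset.sum_sub_distrib]
        have : (R.card : ℤ) = ∑ _v ∈ R, (1 : ℤ) := by simp
        rw [this, ← Finset.sum_add_distrib]
        exact Finset.sum_congr rfl fun v _ => by ring
      rw [e6, hμM, hRM]
      omega
    · exact Finset.sum_nonneg fun v _ => sq_nonneg _
  intro v hv
  have := (Finset.sum_eq_zero_iff_of_nonneg (fun v _ => sq_nonneg (μ v - 1))).1 h0 v hv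
  have := pow_eq_zero_iff (two_ne_zero) |>.1 this
  omega

variable {V : Type} [Fintype V] [DecidableEq V] {G : SimpleGraph V} [DecidableRel G.Adj]

theorem sum_classes {β : Type} [AddCommMonoid β] (R L : Finset V) (A : V → Finset V)
    (h1 : ∀ v ∈ R, ∀ w ∈ R, v ≠ w → Disjoint (A v) (A w)) (h2 : ∀ v ∈ R, Disjoint (A v) L)
    (h3 : ∀ u, u ∈ L ∨ ∃ v ∈ R, u ∈ A v) (F : V → β) :
    ∑ u, F u = ∑ u ∈ L, F u + ∑ v ∈ R, ∑ u ∈ A v, F u := by
  have e1 : (Finset.univ : Finset V) = L ∪ R.biUnion A := by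
    ext u
    simp only [Finset.mem_univ, Finset.mem_union, Finset.mem_biUnion, true_iff]
    exact h3 u
  rw [e1, Finset.sum_union, Finset.sum_biUnion]
  · intro v hv w hw hvw
    exact h1 v hv w hw hvw
  · rw [Finset.disjoint_biUnion_right]
    intro v hv
    exact (h2 v hv).symm

theorem left_over {t m : ℝ} (h : Hyp G t m) (R L : Finset V) (A : V → Finset V)
    (h1 : ∀ v ∈ R, ∀ w ∈ R, v ≠ w → Disjoint (A v) (A w)) (h2 : ∀ v ∈ R, Disjoint (A v) L)
    (h3 : ∀ u, u ∈ L ∨ ∃ v ∈ R, u ∈ A v) (h4 : ∀ v ∈ R, IsClass G t m (A v))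
    (h5 : ∀ u ∈ L, ∀ v ∈ R, cd G u (A v) ≤ 72 / 100 * t) (h6 : (L.card : ℝ) ≤ t / 20)
    (hR : (R.card : ℝ) ≤ m) {u : V} (hu : u ∈ L) : 9 / 25 * t ≤ dg G u - t := by
  classical
  have ht0 := h.t0
  have ht3 := h.t3
  have hm := h.hm
  have hm3 : (0 : ℝ) ≤ m ^ 3 := by positivity
  have hsumE : ∑ v ∈ R, E G (A v) (A v)ᶜ ≤ 1872 * (m ^ 3 * t) := by
    have e1 : ∑ v ∈ R, E G (A v) (A v)ᶜ ≤ ∑ _v ∈ R, 1872 * (m ^ 2 * t) :=
      Finset.sum_le_sum fun v hv => (h4 v hv).out
    rw [Finset.sum_const, nsmul_eq_mul] at e1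
    have e2 : (R.card : ℝ) * (1872 * (m ^ 2 * t)) ≤ m * (1872 * (m ^ 2 * t)) :=
      mul_le_mul_of_nonneg_right hR (by positivity)
    nlinarith
  have hEL : E G L Lᶜ ≤ ∑ v ∈ R, E G (A v) (A v)ᶜ := by
    have e1 : E G L Lᶜ ≤ ∑ v ∈ R, E G L (A v) := by
      rw [E_comm]
      have e2 : (Lᶜ : Finset V) ⊆ R.biUnion A := by
        intro x hx
        rw [Finset.mem_compl] at hx
        rw [Finset.mem_biUnion]
        exact (h3 x).resolve_left hx
      refine (E_mono e2 (Finset.Subset.refl L)).trans (le_of_eq ?_)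
      unfold E
      rw [Finset.sum_biUnion (fun v hv w hw hvw => h1 v hv w hw hvw)]
      refine Finset.sum_congr rfl fun v _ => ?_
      exact E_comm (A v) L
    refine e1.trans (Finset.sum_le_sum fun v hv => ?_)
    rw [E_comm]
    apply E_mono (Finset.Subset.refl _)
    intro x hx
    rw [Finset.mem_compl]
    exact fun h7 => Finset.disjoint_left.1 (h2 v hv) h7 hx
  -- the cross term
  let g : V → ℝ := fun x => (if x ∈ L then cd G x Lᶜ else 0) +
    ∑ v ∈ R, (if x ∈ A v then cd G x (A v)ᶜ else 0)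
  have hg0 : ∀ x, 0 ≤ g x := by
    intro x
    apply add_nonneg
    · split_ifs
      · exact cd_nonneg _ _
      · exact le_refl _
    · apply Finset.sum_nonneg
      intro v _
      split_ifs
      · exact cd_nonneg _ _
      · exact le_refl _
  have hgsum : ∑ x, g x = E G L Lᶜ + ∑ v ∈ R, E G (A v) (A v)ᶜ := by
    rw [Finset.sum_add_distrib, Finset.sum_comm]
    congr 1
    · rw [Finset.sum_ite_mem, Finset.univ_inter]; rfl
    · refine Finset.sum_congr rfl fun v _ => ?_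
      rw [Finset.sum_ite_mem, Finset.univ_inter]; rfl
  have hkey : ∀ x ∈ N G u, cd G x (N G u) ≤ 72 / 100 * t + g x := by
    intro x hx
    rcases h3 x with hxL | ⟨v, hv, hxv⟩
    · have e1 := cd_split (G := G) x (N G u) L
      have e2 : cd G x (N G u ∩ L) ≤ L.card :=
        (cd_le_card _ _).trans (by exact_mod_cast Finset.card_le_card Finset.inter_subset_right)
      have e3 : cd G x (N G u \ L) ≤ cd G x Lᶜ := by
        apply cd_mono
        intro y hy
        rw [Finset.mem_compl]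
        exact (Finset.mem_sdiff.1 hy).2
      have e4 : cd G x Lᶜ ≤ g x := by
        show _ ≤ (if x ∈ L then cd G x Lᶜ else 0) + _
        rw [if_pos hxL]
        have : 0 ≤ ∑ v ∈ R, (if x ∈ A v then cd G x (A v)ᶜ else 0) := by
          apply Finset.sum_nonneg
          intro v _
          split_ifs
          · exact cd_nonneg _ _
          · exact le_refl _
        linarith
      linarith
    · have e1 := cd_split (G := G) x (N G u) (A v)
      have e2 : cd G x (N G u ∩ A v) ≤ cd G u (A v) := by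
        rw [cd_eq_card u]
        exact cd_le_card _ _
      have e3 : cd G x (N G u \ A v) ≤ cd G x (A v)ᶜ := by
        apply cd_mono
        intro y hy
        rw [Finset.mem_compl]
        exact (Finset.mem_sdiff.1 hy).2
      have e4 : cd G x (A v)ᶜ ≤ g x := by
        have e5 : cd G x (A v)ᶜ ≤ ∑ v ∈ R, (if x ∈ A v then cd G x (A v)ᶜ else 0) := by
          have e6 := Finset.single_le_sum (s := R)
            (f := fun v => if x ∈ A v then cd G x (A v)ᶜ else 0) (fun v _ => by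
              split_ifs
              · exact cd_nonneg _ _
              · exact le_refl _) hv
          rwa [if_pos hxv] at e6
        have e7 : 0 ≤ (if x ∈ L then cd G x Lᶜ else 0) := by
          split_ifs
          · exact cd_nonneg _ _
          · exact le_refl _
        show _ ≤ (if x ∈ L then cd G x Lᶜ else 0) + _
        linarith
      have e8 := h5 u hu v hv
      linarith
  have hW := h.hW u
  have hE : E G (N G u) (N G u) ≤ dg G u * (72 / 100 * t) + ∑ x, g x := by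
    unfold E
    refine (Finset.sum_le_sum hkey).trans ?_
    rw [Finset.sum_add_distrib, Finset.sum_const, nsmul_eq_mul]
    have e1 : ∑ x ∈ N G u, g x ≤ ∑ x, g x :=
      Finset.sum_le_sum_of_subset_of_nonneg (Finset.subset_univ _) fun x _ _ => hg0 x
    unfold dg
    linarith
  rw [hgsum] at hE
  have hfin : t * (t - 1) ≤ dg G u * (72 / 100 * t) + 3744 * (m ^ 3 * t) := by linarith
  have hfin2 : t - 1 ≤ dg G u * (72 / 100) + 3744 * m ^ 3 := by
    have e1 : t * (t - 1) ≤ t * (dg G u * (72 / 100) + 3744 * m ^ 3) := by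
      refine hfin.trans (le_of_eq ?_); ring
    exact le_of_mul_le_mul_left e1 (by linarith)
  linarith

end Q116.TD
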