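import Pool.Agent.Q116.TD.Class2

/-! # The main inequality for a class, and the final count -/

set_option autoImplicit false

namespace Q116.TD

open Finset

variable {V : Type} [Fintype V] [DecidableEq V] {G : SimpleGraph V} [DecidableRel G.Adj]

theorem E_N_split (u : V) (A : Finset V) :
    E G (N G u) (N G u) ≤ cd G u A ^ 2 + (dg G u - cd G u A) ^ 2 + 2 * E G A Aᶜ := by
  have hP : ((N G u ∩ A).card : ℝ) = cd G u A := (cd_eq_card u A).symm
  have hQ : ((N G u \ A).card : ℝ) = dg G u - cd G u A := by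
    have h1 : ((N G u ∩ A).card : ℝ) + (N G u \ A).card = dg G u := by
      unfold dg
      have := Finset.card_inter_add_card_sdiff (N G u) A
      exact_mod_cast this
    linarith
  have h1 := E_split_left (G := G) (N G u) (N G u) A
  have h2 := E_split_right (G := G) (N G u ∩ A) (N G u) A
  have h3 := E_split_right (G := G) (N G u \ A) (N G u) A
  have h4 := E_le_mul (G := G) (N G u ∩ A) (N G u ∩ A)
  have h5 := E_le_mul (G := G) (N G u \ A) (N G u \ A)
  have hc : N G u \ A ⊆ Aᶜ := by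
    intro x hx
    rw [Finset.mem_compl]
    exact (Finset.mem_sdiff.1 hx).2
  have h6 : E G (N G u ∩ A) (N G u \ A) ≤ E G A Aᶜ := E_mono Finset.inter_subset_right hc
  have h7 : E G (N G u \ A) (N G u ∩ A) ≤ E G A Aᶜ := by
    rw [E_comm]; exact h6
  rw [hP] at h4
  rw [hQ] at h5
  nlinarith

theorem nb_in {t m : ℝ} (h : Hyp G t m) {A : Finset V} (hA : IsClass G t m A) {u : V}
    (hu : u ∈ A) : t - 14980 * m ^ 2 ≤ cd G u A + (dg G u - t) := by
  have h1 := E_N_split (G := G) u A
  have h2 := h.hW u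
  have h3 := hA.out
  have h4 := hA.ins u hu
  have h5 := h.hd u
  have h6 : cd G u A ≤ dg G u := by
    rw [← cd_univ]; exact cd_mono u (Finset.subset_univ _)
  have hm := h.hm
  have hm2 : 1 ≤ m ^ 2 := one_le_pow₀ hm
  have ht0 := h.t0
  by_contra hcon
  push Not at hcon
  obtain ⟨c, hc⟩ : ∃ c, c = t - cd G u A := ⟨_, rfl⟩
  have hx : cd G u A = t - c := by linarith
  rw [hx] at h1 h4 h6 hcon
  obtain ⟨y, hy⟩ : ∃ y, y = dg G u - (t - c) := ⟨_, rfl⟩
  rw [← hy] at h1
  have hy0 : 0 ≤ y := by linarith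
  have hy1 : y ≤ 2 * c := by linarith
  have hc1 : 14980 * m ^ 2 < c := by linarith
  have hc2 : c ≤ 35 / 100 * t := by linarith
  have hc0 : 0 < c := by linarith
  have hy2 : y ^ 2 ≤ (2 * c) ^ 2 := by gcongr
  have h7 : c * c ≤ 35 / 100 * t * c := mul_le_mul_of_nonneg_right hc2 hc0.le
  have h8 : t * (14980 * m ^ 2) < t * c := mul_lt_mul_of_pos_left hc1 (by linarith)
  have h9 : t * 1 ≤ t * m ^ 2 := mul_le_mul_of_nonneg_left hm2 (by linarith)
  nlinarith

theorem main_ineq {t m : ℝ} (h : Hyp G t m) {A : Finset V} (hA : IsClass G t m A) {w : V}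
    (hw : w ∈ A) (hδ : dg G w - t ≤ 2 * m) :
    (((A.card : ℝ) - (t + 1)) - 2 * (dg G w - t)) * t - 1508000 * m ^ 3 ≤
      ∑ u ∈ A, (dg G u - t) := by
  have hm := h.hm
  have ht0 := h.t0
  have ht2 := h.t2
  have ht1 := h.t1
  have hdw := h.hd w
  have hhi := hA.hi
  -- the sets
  set X := A \ K G w with hX
  have hb := basic t w A (h.hW w)
  have hN : N G w ∩ A ⊆ A := Finset.inter_subset_right
  have hXA : X ⊆ A := Finset.sdiff_subset
  have hdisj : Disjoint (N G w ∩ A) X := by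
    rw [Finset.disjoint_left]
    intro x hx hx'
    rw [hX, Finset.mem_sdiff] at hx'
    exact hx'.2 (Finset.mem_insert_of_mem (Finset.mem_inter.1 hx).1)
  have h1 : ∑ u ∈ N G w ∩ A, (dg G u - t) + ∑ u ∈ X, (dg G u - t) ≤ ∑ u ∈ A, (dg G u - t) := by
    rw [← Finset.sum_union hdisj]
    exact Finset.sum_le_sum_of_subset_of_nonneg (Finset.union_subset hN hXA)
      fun v _ _ => sub_nonneg.2 (h.hd v)
  -- edges between X and N w ∩ A
  have h2 : ∑ x ∈ X, (cd G x A - X.card) ≤ ∑ u ∈ N G w ∩ A, cd G u (K G w)ᶜ := by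
    have e1 : E G X (N G w ∩ A) ≤ ∑ u ∈ N G w ∩ A, cd G u (K G w)ᶜ := by
      rw [E_comm]
      apply E_mono (Finset.Subset.refl _)
      intro x hx
      rw [Finset.mem_compl]
      exact (Finset.mem_sdiff.1 hx).2
    refine le_trans ?_ e1
    unfold E
    apply Finset.sum_le_sum
    intro x hx
    have e2 := cd_split (G := G) x A (N G w)
    have e3 : cd G x (A \ N G w) ≤ X.card := by
      rw [cd_eq_card]
      have e4 : N G x ∩ (A \ N G w) ⊆ X := by
        intro y hy
        rw [Finset.mem_inter, Finset.mem_sdiff] at hy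
        rw [hX, Finset.mem_sdiff]
        refine ⟨hy.2.1, ?_⟩
        intro hyK
        unfold K at hyK
        rcases Finset.mem_insert.1 hyK with h5 | h5
        · rw [h5] at hy
          have h6 : x ∈ N G w := mem_N.2 (mem_N.1 hy.1).symm
          exact (Finset.mem_sdiff.1 hx).2 (Finset.mem_insert_of_mem h6)
        · exact hy.2.2 h5
      exact_mod_cast Finset.card_le_card e4
    rw [Finset.inter_comm A (N G w)] at e2
    linarith
  have h3 : ∑ x ∈ X, (t - 14980 * m ^ 2 - X.card) ≤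
      ∑ x ∈ X, (cd G x A - X.card) + ∑ u ∈ X, (dg G u - t) := by
    rw [← Finset.sum_add_distrib]
    apply Finset.sum_le_sum
    intro x hx
    have := nb_in h hA (hXA hx)
    linarith
  rw [Finset.sum_const, nsmul_eq_mul] at h3
  -- sizes
  have hO : ((N G w \ A).card : ℝ) = dg G w - cd G w A := by
    have h4 : ((N G w ∩ A).card : ℝ) + (N G w \ A).card = dg G w := by
      unfold dg
      have := Finset.card_inter_add_card_sdiff (N G w) A
      exact_mod_cast this
    rw [cd_eq_card]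
    linarith
  have hXc : (X.card : ℝ) = A.card - 1 - cd G w A := by
    have e1 : (A ∩ K G w) = insert w (N G w ∩ A) := by
      ext y
      unfold K
      simp only [Finset.mem_inter, Finset.mem_insert]
      constructor
      · rintro ⟨hy, rfl | hy2⟩
        · exact Or.inl rfl
        · exact Or.inr ⟨hy2, hy⟩
      · rintro (rfl | ⟨hy1, hy2⟩)
        · exact ⟨hw, Or.inl rfl⟩
        · exact ⟨hy2, Or.inr hy1⟩
    have e2 : ((A ∩ K G w).card : ℝ) + X.card = A.card := by
      have := Finset.card_inter_add_card_sdiff A (K G w)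
      exact_mod_cast this
    have e3 : w ∉ N G w ∩ A := fun h5 => self_notMem_N w (Finset.mem_inter.1 h5).1
    rw [e1, Finset.card_insert_of_notMem e3] at e2
    rw [cd_eq_card]
    push_cast at e2
    linarith
  have hins := hA.ins w hw
  have hO0 : (0 : ℝ) ≤ ((N G w \ A).card : ℝ) := by positivity
  have hX0 : (0 : ℝ) ≤ (X.card : ℝ) := by positivity
  obtain ⟨o, ho⟩ : ∃ o : ℝ, o = (N G w \ A).card := ⟨_, rfl⟩
  obtain ⟨x, hx⟩ : ∃ x : ℝ, x = X.card := ⟨_, rfl⟩
  obtain ⟨δ, hδ'⟩ : ∃ δ : ℝ, δ = dg G w - t := ⟨_, rfl⟩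
  obtain ⟨s, hs⟩ : ∃ s : ℝ, s = (A.card : ℝ) - (t + 1) := ⟨_, rfl⟩
  rw [← ho] at hO hO0 hb
  rw [← hx] at hXc hX0 h2 h3
  rw [← hδ'] at hb hδ
  rw [← hδ', ← hs]
  have hxs : x = s - δ + o := by linarith
  have hδ0 : 0 ≤ δ := by linarith
  have ho1 : o ≤ 35 / 100 * t + 2 * m := by linarith
  have hs1 : s ≤ 100 * m := by linarith
  have hcomb : x * (t - 14980 * m ^ 2 - x) - δ * (t - 1 + o) ≤ ∑ u ∈ A, (dg G u - t) := by
    linarith
  refine le_trans ?_ hcomb
  have hm2 := h.m2
  have hm3 := h.m3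
  have k1 : x ≤ 100 * m + o := by linarith
  have k2 : x * (14980 * m ^ 2 + x) ≤ (100 * m + o) * (14980 * m ^ 2 + (100 * m + o)) := by
    apply mul_le_mul k1 (by linarith) (by positivity) (by positivity)
  have k3 : 0 ≤ o * (t - 14980 * m ^ 2 - 200 * m - o - δ) := by
    apply mul_nonneg hO0
    nlinarith
  have k4 : (s - 2 * δ) * t = (x - o - δ) * t := by rw [hxs]; ring
  rw [k4]
  have k5 : 100 * m * (14980 * m ^ 2 + 100 * m) ≤ 1508000 * m ^ 3 := by nlinarith
  nlinarith

end Q116.TD
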