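import Pool.Agent.Q116.TD.Final

/-! # Graphs with few edges are regular -/

set_option autoImplicit false

namespace Q116.TD

open Finset

variable {V : Type} [Fintype V] [DecidableEq V]

theorem dg_eq (G : SimpleGraph V) [DecidableRel G.Adj] (v : V) : dg G v = (G.degree v : ℝ) := by
  unfold dg
  rw [G.card_neighborFinset_eq_degree]

theorem degree_ge (G : SimpleGraph V) [DecidableRel G.Adj] (T : ℕ) (hT : 2 ≤ T) (v : V)
    (hW : (T : ℝ) * (T - 1) ≤ E G (N G v) (N G v)) : T ≤ G.degree v := by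
  have h1 := hW.trans (E_N_le v)
  rw [dg_eq] at h1
  by_contra hcon
  push Not at hcon
  have h2 : ((G.degree v : ℕ) : ℝ) ≤ T - 1 := by
    have : G.degree v + 1 ≤ T := hcon
    have h3 : ((G.degree v + 1 : ℕ) : ℝ) ≤ T := by exact_mod_cast this
    push_cast at h3; linarith
  have hT' : (2 : ℝ) ≤ T := by exact_mod_cast hT
  have h4 : (0 : ℝ) ≤ G.degree v := by positivity
  nlinarith

theorem regular_of (M T : ℕ) (hM : 1 ≤ M) (hT : 10 ^ 9 * M ^ 4 ≤ T) (G : SimpleGraph V)
    [DecidableRel G.Adj] (hn : Fintype.card V = M * (T + 4))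
    (hW : ∀ v, (T : ℝ) * (T - 1) ≤ E G (N G v) (N G v))
    (hsum : ∑ v, G.degree v ≤ M * (T + 4) * (T + 1)) : ∀ v, G.degree v = T + 1 := by
  classical
  have hM4 : 1 ≤ M ^ 4 := Nat.one_le_pow _ _ hM
  have hT2 : 2 ≤ T := by omega
  have hdeg : ∀ v, T ≤ G.degree v := fun v => degree_ge G T hT2 v (hW v)
  have hMr : (1 : ℝ) ≤ M := by exact_mod_cast hM
  have h : Hyp G (T : ℝ) (M : ℝ) := by
    refine ⟨hW, ?_, ?_, ?_, hMr, ?_⟩
    · intro v
      rw [dg_eq]
      exact_mod_cast hdeg v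
    · rw [Finset.sum_sub_distrib, Finset.sum_const, Finset.card_univ, hn, nsmul_eq_mul]
      have h1 : ∑ v, dg G v = ((∑ v, G.degree v : ℕ) : ℝ) := by
        push_cast
        exact Finset.sum_congr rfl fun v _ => dg_eq G v
      have h2 : ((∑ v, G.degree v : ℕ) : ℝ) ≤ ((M * (T + 4) * (T + 1) : ℕ) : ℝ) := by
        exact_mod_cast hsum
      rw [h1]
      push_cast at h2 ⊢
      linarith
    · rw [hn]; push_cast; ring
    · exact_mod_cast hT
  obtain ⟨R, L, A, hc1, hc2, hc3, hc4, hc5, hc6⟩ := classes h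
  have ht0 := h.t0
  have ht1 := h.t1
  have ht2 := h.t2
  have ht3 := h.t3
  have ht4 := h.ht
  have hm2 := h.m2
  have hm3 := h.m3
  have hm4 := h.m4
  -- sizes
  have hsize : L.card + ∑ v ∈ R, (A v).card = M * (T + 4) := by
    rw [← hn, ← Finset.card_univ, Finset.card_eq_sum_ones Finset.univ,
      sum_classes R L A hc1 hc2 hc3 (fun _ => 1)]
    simp
  have hRc : (R.card : ℝ) * ((T : ℝ) + 1 - 550 * M) ≤ (M : ℝ) * (T + 4) := by
    have h1 : (R.card : ℝ) * ((T : ℝ) + 1 - 550 * M) ≤ ∑ v ∈ R, ((A v).card : ℝ) := by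
      rw [← nsmul_eq_mul]
      exact Finset.card_nsmul_le_sum _ _ _ fun v hv => (hc4 v hv).lo
    have h2 : ((L.card + ∑ v ∈ R, (A v).card : ℕ) : ℝ) = ((M * (T + 4) : ℕ) : ℝ) := by
      rw [hsize]
    push_cast at h2
    have h3 : (0 : ℝ) ≤ L.card := by positivity
    linarith
  have hRM : R.card ≤ M := by
    by_contra hcon
    push Not at hcon
    have h1 : (M : ℝ) + 1 ≤ R.card := by exact_mod_cast hcon
    have h2 : ((M : ℝ) + 1) * ((T : ℝ) + 1 - 550 * M) ≤ R.card * ((T : ℝ) + 1 - 550 * M) :=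
      mul_le_mul_of_nonneg_right h1 (by linarith)
    nlinarith
  have hRMr : (R.card : ℝ) ≤ M := by exact_mod_cast hRM
  have hL : ∀ u ∈ L, 9 / 25 * (T : ℝ) ≤ dg G u - T := fun u hu =>
    left_over h R L A hc1 hc2 hc3 hc4 hc5 hc6 hRMr hu
  -- minimizers
  have hw : ∀ v, ∃ w, v ∈ R → w ∈ A v ∧ ∀ u ∈ A v, G.degree w ≤ G.degree u := by
    intro v
    by_cases hv : v ∈ R
    · have hne : (A v).Nonempty := by
        rw [← Finset.card_pos]
        have := (hc4 v hv).lo
        have h1 : (0 : ℝ) < (A v).card := by linarith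
        exact_mod_cast h1
      obtain ⟨w, hw1, hw2⟩ := Finset.exists_min_image (A v) (fun u => G.degree u) hne
      exact ⟨w, fun _ => ⟨hw1, hw2⟩⟩
    · exact ⟨v, fun h => absurd h hv⟩
  choose w hw using hw
  have hΔcast : ∀ S : Finset V, ((∑ u ∈ S, ((G.degree u : ℤ) - T) : ℤ) : ℝ) =
      ∑ u ∈ S, (dg G u - T) := by
    intro S
    push_cast
    exact Finset.sum_congr rfl fun u _ => by rw [dg_eq]
  have hμcard : ∀ v ∈ R, ((G.degree (w v) : ℤ) - T) * ((A v).card : ℤ) ≤
      ∑ u ∈ A v, ((G.degree u : ℤ) - T) := by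
    intro v hv
    rw [mul_comm, ← nsmul_eq_mul]
    apply Finset.card_nsmul_le_sum
    intro u hu
    have := (hw v hv).2 u hu
    have : (G.degree (w v) : ℤ) ≤ G.degree u := by exact_mod_cast this
    omega
  have hμ0 : ∀ v, 0 ≤ ((G.degree (w v) : ℤ) - T) := by
    intro v
    have : (T : ℤ) ≤ G.degree (w v) := by exact_mod_cast hdeg (w v)
    omega
  have hμ2 : ∀ v ∈ R, ((G.degree (w v) : ℤ) - T) ≤ 2 * M := by
    intro v hv
    by_contra hcon
    push Not at hcon
    have h1 := hμcard v hv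
    have h2 : (((G.degree (w v) : ℤ) - T : ℤ) : ℝ) * ((A v).card : ℝ) ≤
        ∑ u ∈ A v, (dg G u - T) := by
      rw [← hΔcast]; exact_mod_cast h1
    have h3 := h.sum_le (A v)
    have h4 : 2 * (M : ℝ) + 1 ≤ (((G.degree (w v) : ℤ) - T : ℤ) : ℝ) := by
      have : 2 * (M : ℤ) + 1 ≤ (G.degree (w v) : ℤ) - T := by omega
      exact_mod_cast this
    have h5 := (hc4 v hv).lo
    have h6 : (2 * (M : ℝ) + 1) * ((T : ℝ) + 1 - 550 * M) ≤
        (((G.degree (w v) : ℤ) - T : ℤ) : ℝ) * ((A v).card : ℝ) :=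
      mul_le_mul h4 h5 (by linarith) (by linarith)
    nlinarith
  have hlo : ∀ v ∈ R, (T : ℤ) + 1 - 550 * M ≤ (A v).card := by
    intro v hv
    have := (hc4 v hv).lo
    exact_mod_cast this
  have hMz : (1 : ℤ) ≤ M := by exact_mod_cast hM
  obtain ⟨hL0, hμ1⟩ := arith R M T L.card (∑ u ∈ L, ((G.degree u : ℤ) - T)) (1508000 * M ^ 3)
    (fun v => (A v).card - (T + 1)) (fun v => (G.degree (w v) : ℤ) - T)
    (fun v => ∑ u ∈ A v, ((G.degree u : ℤ) - T)) hMz (by positivity) (by
      rw [Finset.sum_sub_distrib, Finset.sum_const, nsmul_eq_mul]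
      have : ((L.card + ∑ v ∈ R, (A v).card : ℕ) : ℤ) = ((M * (T + 4) : ℕ) : ℤ) := by rw [hsize]
      push_cast at this
      linarith) (by exact_mod_cast hRM) (by
      intro v hv
      have := hμcard v hv
      rw [show (T : ℤ) + 1 + ((A v).card - (T + 1)) = (A v).card by ring]
      exact this) (by
      intro v hv
      have h1 := hμcard v hv
      have h2 := hlo v hv
      have h3 := hμ0 v
      have h4 := hμ2 v hv
      have h5 : ((G.degree (w v) : ℤ) - T) * ((T : ℤ) + 1 - 550 * M) ≤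
          ((G.degree (w v) : ℤ) - T) * ((A v).card : ℤ) := mul_le_mul_of_nonneg_left h2 h3
      have h6 : ((G.degree (w v) : ℤ) - T) * M ≤ 2 * M * M :=
        mul_le_mul_of_nonneg_right h4 (by omega)
      have h7 : (M : ℤ) * M ≤ M ^ 3 := by
        have : (M : ℤ) ^ 2 * 1 ≤ M ^ 2 * M := mul_le_mul_of_nonneg_left hMz (by positivity)
        nlinarith
      nlinarith) (by
      intro v hv
      have h1 := hw v hv
      have h2 : dg G (w v) - T ≤ 2 * M := by
        have := hμ2 v hv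
        rw [dg_eq]
        have h3 : (((G.degree (w v) : ℤ) - T : ℤ) : ℝ) ≤ ((2 * M : ℤ) : ℝ) := by exact_mod_cast this
        push_cast at h3
        exact h3
      have h3 := main_ineq h (hc4 v hv) h1.1 h2
      rw [← hΔcast] at h3
      rw [dg_eq] at h3
      have h4 : ((((A v).card - ((T : ℤ) + 1) - 2 * ((G.degree (w v) : ℤ) - T)) * T -
          1508000 * (M : ℤ) ^ 3 : ℤ) : ℝ) ≤
          ((∑ u ∈ A v, ((G.degree u : ℤ) - T) : ℤ) : ℝ) := by
        push_cast
        push_cast at h3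
        exact h3
      exact_mod_cast h4) (by
      have h1 : (9 / 25 * (T : ℝ)) * L.card ≤ ∑ u ∈ L, (dg G u - T) := by
        rw [mul_comm, ← nsmul_eq_mul]
        exact Finset.card_nsmul_le_sum _ _ _ hL
      rw [← hΔcast] at h1
      have h2 : ((9 * (T : ℤ) * L.card : ℤ) : ℝ) ≤
          ((25 * ∑ u ∈ L, ((G.degree u : ℤ) - T) : ℤ) : ℝ) := by
        push_cast
        push_cast at h1
        linarith
      exact_mod_cast h2) (by
      have h1 := sum_classes R L A hc1 hc2 hc3 (fun u => ((G.degree u : ℤ) - T))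
      have h2 : ((∑ u, ((G.degree u : ℤ) - T) : ℤ) : ℝ) ≤ ((M * (T + 4) : ℤ) : ℝ) := by
        rw [hΔcast]
        push_cast
        exact h.hB
      have h3 : ∑ u, ((G.degree u : ℤ) - T) ≤ M * (T + 4) := by exact_mod_cast h2
      rw [h1] at h3
      linarith) (by positivity) (by
      have h1 : (10 : ℤ) ^ 9 * M ^ 4 ≤ T := by exact_mod_cast hT
      have h2 : (M : ℤ) ≤ M ^ 4 := by
        have h3 : (1 : ℤ) ≤ (M : ℤ) ^ 3 := one_le_pow₀ hMz
        have h4 : (M : ℤ) * 1 ≤ M * M ^ 3 := mul_le_mul_of_nonneg_left h3 (by omega)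
        have h5 : (M : ℤ) * M ^ 3 = M ^ 4 := by ring
        omega
      have h3 : 75 * ((M : ℤ) * (1508000 * M ^ 3)) = 113100000 * M ^ 4 := by ring
      rw [h3]
      omega)
  have hge : ∀ u, T + 1 ≤ G.degree u := by
    intro u
    rcases hc3 u with hu | ⟨v, hv, hu⟩
    · exfalso
      have : L.card = 0 := by exact_mod_cast hL0
      rw [Finset.card_eq_zero] at this
      rw [this] at hu
      simp at hu
    · have h1 := (hw v hv).2 u hu
      have h2 : (G.degree (w v) : ℤ) - T = 1 := hμ1 v hv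
      have h3 : (G.degree (w v) : ℤ) = T + 1 := by omega
      have h4 : G.degree (w v) = T + 1 := by exact_mod_cast h3
      omega
  have heq : ∑ _v : V, (T + 1) = ∑ v, G.degree v := by
    apply le_antisymm
    · exact Finset.sum_le_sum fun v _ => hge v
    · refine hsum.trans (le_of_eq ?_)
      rw [Finset.sum_const, Finset.card_univ, hn, smul_eq_mul]
  intro v
  have := (Finset.sum_eq_sum_iff_of_le (fun v _ => hge v)).1 heq v (Finset.mem_univ v)
  exact this.symm

end Q116.TD
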